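import Pool.Agent.R967.Mea.Law

/-!
# Components meeting the axis twice in a random meandric system: central limit theorem

For a uniform pair of non-crossing perfect matchings of `2n` points, the number of pairs
belonging to both matchings is asymptotically normal.
-/

set_option autoImplicit false

namespace Pool.Agent.Results.MP_3d3bcd_pr.CentralLimit

open Filter Topology MeasureTheory ProbabilityTheory

/-- `f` is a non-crossing perfect matching of `2n` points on the line: an involution without fixed
point (the partner of `i` is `f i`) with no `i < k < f i < f k`. -/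
def IsMatching (n : ℕ) (f : Fin (2 * n) → Fin (2 * n)) : Prop :=
  (∀ i, f (f i) = i) ∧ (∀ i, f i ≠ i) ∧ ∀ i k, ¬ (i < k ∧ k < f i ∧ f i < f k)

open Classical in
/-- The meandric systems of size `n`. -/
noncomputable def systems (n : ℕ) :
    Finset ((Fin (2 * n) → Fin (2 * n)) × (Fin (2 * n) → Fin (2 * n))) :=
  Finset.univ.filter (fun p => IsMatching n p.1 ∧ IsMatching n p.2)

/-- The number of pairs `i < j` that are matched by both matchings, that is, the number of
components meeting the real axis in exactly two points. -/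
def twoPoint (n : ℕ) (p : (Fin (2 * n) → Fin (2 * n)) × (Fin (2 * n) → Fin (2 * n))) : ℕ :=
  (Finset.univ.filter (fun i => i < p.1 i ∧ p.1 i = p.2 i)).card

/-- The mean of `twoPoint` for a uniform meandric system of size `n`. -/
noncomputable def mean (n : ℕ) : ℝ :=
  (∑ p ∈ systems n, (twoPoint n p : ℝ)) / ((systems n).card : ℝ)

/-- The variance of `twoPoint` for a uniform meandric system of size `n`. -/
noncomputable def variance (n : ℕ) : ℝ :=
  (∑ p ∈ systems n, ((twoPoint n p : ℝ) - mean n) ^ 2) / ((systems n).card : ℝ)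

open Classical in
/-- The distribution function of the normalised count for a uniform meandric system. -/
noncomputable def distr (n : ℕ) (x : ℝ) : ℝ :=
  (((systems n).filter (fun p => ((twoPoint n p : ℝ) - mean n) / √(variance n) ≤ x)).card : ℝ) /
    ((systems n).card : ℝ)

open Pool.Agent.R967.Mea

/-- Extension by the identity. -/
def toN (n : ℕ) (f : Fin (2 * n) → Fin (2 * n)) (i : ℕ) : ℕ :=
  if h : i < 2 * n then (f ⟨i, h⟩ : ℕ) else i

theorem toN_val (n : ℕ) (f : Fin (2 * n) → Fin (2 * n)) (i : Fin (2 * n)) :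
    toN n f i = (f i : ℕ) := by
  unfold toN
  rw [dif_pos i.2]

theorem toN_inj (n : ℕ) : Function.Injective (toN n) := by
  intro f g h
  funext i
  have h1 := congrFun h i
  rw [toN_val, toN_val] at h1
  exact Fin.ext h1

theorem nc_toN {n : ℕ} {f : Fin (2 * n) → Fin (2 * n)} (hf : IsMatching n f) :
    NC (Finset.range (2 * n)) (toN n f) := by
  obtain ⟨h1, h2, h3⟩ := hf
  refine ⟨?_, ?_, ?_, ?_, ?_⟩
  · intro i hi
    rw [Finset.mem_range] at hi
    unfold toN
    rw [dif_neg hi]
  · intro i hi
    rw [Finset.mem_range] at hi ⊢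
    have := toN_val n f ⟨i, hi⟩
    simp only at this
    rw [this]
    exact (f ⟨i, hi⟩).2
  · intro i hi
    rw [Finset.mem_range] at hi
    have e := toN_val n f ⟨i, hi⟩
    simp only at e
    rw [e, toN_val, h1]
  · intro i hi
    rw [Finset.mem_range] at hi
    have e := toN_val n f ⟨i, hi⟩
    simp only at e
    rw [e]
    intro h
    exact h2 ⟨i, hi⟩ (Fin.ext h)
  · intro i hi j hj hij hji
    rw [Finset.mem_range] at hi hj
    have e1 := toN_val n f ⟨i, hi⟩
    have e2 := toN_val n f ⟨j, hj⟩
    simp only at e1 e2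
    rw [e1] at hji ⊢
    rw [e2]
    obtain ⟨a, ha⟩ : ∃ a : Fin (2 * n), a = ⟨i, hi⟩ := ⟨_, rfl⟩
    obtain ⟨b, hb⟩ : ∃ b : Fin (2 * n), b = ⟨j, hj⟩ := ⟨_, rfl⟩
    rw [← ha] at hji ⊢
    rw [← hb]
    have ea : (a : ℕ) = i := by rw [ha]
    have eb : (b : ℕ) = j := by rw [hb]
    have hab : a < b := by rw [Fin.lt_def, ea, eb]; exact hij
    have hba : b < f a := by rw [Fin.lt_def, eb]; exact hji
    have h4 : f b < f a := by
      rcases lt_trichotomy (f b) (f a) with h | h | h
      · exact h
      · exfalso
        have := congrArg f h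
        rw [h1, h1] at this
        exact hab.ne this.symm
      · exact absurd ⟨hab, hba, h⟩ (h3 a b)
    have h5 : a < f b := by
      rcases lt_trichotomy a (f b) with h | h | h
      · exact h
      · exfalso
        have := congrArg f h
        rw [h1] at this
        exact hba.ne this.symm
      · exfalso
        refine h3 (f b) a ⟨h, ?_, ?_⟩
        · rw [h1]; exact hab
        · rw [h1]; exact hba
    exact ⟨by rw [← ea]; exact h5, h4⟩

theorem exists_of_nc {n : ℕ} {g : ℕ → ℕ} (hg : NC (Finset.range (2 * n)) g) :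
    ∃ f : Fin (2 * n) → Fin (2 * n), IsMatching n f ∧ toN n f = g := by
  have hm : ∀ i : Fin (2 * n), g i < 2 * n := fun i =>
    Finset.mem_range.1 (hg.mem i (Finset.mem_range.2 i.2))
  refine ⟨fun i => ⟨g i, hm i⟩, ⟨?_, ?_, ?_⟩, ?_⟩
  · intro i
    exact Fin.ext (hg.inv i (Finset.mem_range.2 i.2))
  · intro i h
    exact hg.ne i (Finset.mem_range.2 i.2) (congrArg Fin.val h)
  · rintro i k ⟨h1, h2, h3⟩
    rw [Fin.lt_def] at h1 h2 h3
    have := (hg.nc i (Finset.mem_range.2 i.2) k (Finset.mem_range.2 k.2) h1 h2).2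
    simp only at h3
    omega
  · funext i
    unfold toN
    split_ifs with h
    · rfl
    · rw [hg.off i (by rwa [Finset.mem_range])]

open Classical in
/-- The matchings. -/
noncomputable def single (n : ℕ) : Finset (Fin (2 * n) → Fin (2 * n)) :=
  Finset.univ.filter (fun f => IsMatching n f)

theorem mem_single {n : ℕ} {f : Fin (2 * n) → Fin (2 * n)} : f ∈ single n ↔ IsMatching n f := by
  simp [single]

theorem mem_systems {n : ℕ} {p : (Fin (2 * n) → Fin (2 * n)) × (Fin (2 * n) → Fin (2 * n))} :
    p ∈ systems n ↔ IsMatching n p.1 ∧ IsMatching n p.2 := by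
  simp [systems]

theorem map_single (n : ℕ) :
    (single n).map ⟨toN n, toN_inj n⟩ = MF (Finset.range (2 * n)) := by
  ext g
  rw [mem_MF, Finset.mem_map]
  constructor
  · rintro ⟨f, hf, rfl⟩
    exact nc_toN (mem_single.1 hf)
  · intro hg
    obtain ⟨f, hf, rfl⟩ := exists_of_nc hg
    exact ⟨f, mem_single.2 hf, rfl⟩

theorem systems_eq (n : ℕ) : systems n = single n ×ˢ single n := by
  ext p
  rw [mem_systems, Finset.mem_product, mem_single, mem_single]

theorem YY_eq {n : ℕ} {f g : Fin (2 * n) → Fin (2 * n)} (hf : IsMatching n f)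
    (hg : IsMatching n g) : YY n (toN n f, toN n g) = twoPoint n (f, g) := by
  symm
  unfold YY twoPoint Y
  refine Finset.card_bij (fun a _ => (f a : ℕ)) ?_ ?_ ?_
  · intro a ha
    simp only [Finset.mem_filter, Finset.mem_univ, true_and, Finset.mem_range] at ha ⊢
    obtain ⟨h1, h2⟩ := ha
    rw [toN_val, toN_val, hf.1, h2, hg.1]
    refine ⟨(g a).2, Nat.zero_le _, rfl, ?_⟩
    rw [← h2]
    exact h1
  · intro a _ b _ h
    have := congrArg f (Fin.ext h)
    rwa [hf.1, hf.1] at this
  · intro x hx
    simp only [Finset.mem_filter, Finset.mem_range] at hx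
    obtain ⟨h1, _, h2, h3⟩ := hx
    have e1 := toN_val n f ⟨x, h1⟩
    have e2 := toN_val n g ⟨x, h1⟩
    simp only at e1 e2
    rw [e1, e2] at h2
    rw [e1] at h3
    have h4 : f ⟨x, h1⟩ = g ⟨x, h1⟩ := Fin.ext h2
    refine ⟨f ⟨x, h1⟩, ?_, ?_⟩
    · simp only [Finset.mem_filter, Finset.mem_univ, true_and]
      rw [hf.1]
      refine ⟨h3, ?_⟩
      rw [h4, hg.1]
    · rw [hf.1]

theorem sum_systems (n : ℕ) (F : ℕ → ℝ) :
    ∑ p ∈ systems n, F (twoPoint n p) = ∑ p ∈ WW n, F (YY n p) := by
  unfold WW
  rw [systems_eq, Finset.sum_product, Finset.sum_product, ← map_single, Finset.sum_map]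
  refine Finset.sum_congr rfl fun f hf => ?_
  rw [Finset.sum_map]
  refine Finset.sum_congr rfl fun g hg => ?_
  rw [mem_single] at hf hg
  simp only [Function.Embedding.coeFn_mk]
  rw [YY_eq hf hg]

theorem card_systems (n : ℕ) : ((systems n).card : ℝ) = (catalan n : ℝ) ^ 2 := by
  have h := sum_systems n (fun _ => 1)
  simp only [Finset.sum_const, nsmul_eq_mul, mul_one] at h
  rw [h, card_WW]

theorem expect_eq (n : ℕ) (F : ℕ → ℝ) :
    (∑ p ∈ systems n, F (twoPoint n p)) / ((systems n).card : ℝ) = EE n F := by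
  rw [sum_systems, card_systems]
  rfl

theorem mean_eq (n : ℕ) : mean n = mm n := expect_eq n (fun y => (y : ℝ))

theorem variance_eq (n : ℕ) : variance n = vv n := by
  unfold variance
  rw [mean_eq]
  exact expect_eq n (fun y => ((y : ℝ) - mm n) ^ 2)

theorem distr_eq (n : ℕ) (x : ℝ) : distr n x = EE n (fun y =>
    if ((y : ℝ) - mm n) / √(vv n) ≤ x then 1 else 0) := by
  unfold distr
  rw [← expect_eq, mean_eq, variance_eq, Finset.sum_boole]

/-- The mean is `(2 / π - 1 / 2) n` up to a convergent error. -/
theorem mean_asymp :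
    ∃ c : ℝ, Tendsto (fun n : ℕ => mean n - (2 / Real.pi - 1 / 2) * n) atTop (𝓝 c) := by
  refine ⟨6 * aa * (1 + mu1), tendsto_mm.congr fun n => ?_⟩
  rw [mean_eq, aa_eq]
  ring

/-- The variance is asymptotically `2 (1 / π - 1 / 4) (5 / 4 - 1 / π) n`. -/
theorem variance_asymp : Tendsto (fun n : ℕ => variance n / n) atTop
    (𝓝 (2 * (1 / Real.pi - 1 / 4) * (5 / 4 - 1 / Real.pi))) := by
  have h := tendsto_vv
  have e : 2 * aa * (1 - aa) = 2 * (1 / Real.pi - 1 / 4) * (5 / 4 - 1 / Real.pi) := by
    rw [aa_eq]
    ring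
  rw [e] at h
  refine h.congr fun n => ?_
  rw [variance_eq]

/-- **Central limit theorem.** For a uniform meandric system of size `n`, the number of components
meeting the axis in exactly two points, centred by its mean and divided by its standard deviation,
converges in distribution to the standard normal law: the distribution functions converge at every
point. -/
theorem result (x : ℝ) :
    Tendsto (fun n => distr n x) atTop (𝓝 ((gaussianReal 0 1).real (Set.Iic x))) := by
  refine (clt x).congr fun n => ?_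
  rw [distr_eq]

end Pool.Agent.Results.MP_3d3bcd_pr.CentralLimit
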